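import Mathlib
import Pool.Agent.H10.Iso

set_option autoImplicit false

namespace Pool.Agent.Results.MP_74a3dd_lc.NotFG

open FirstOrder FirstOrder.Language

theorem result : ∃ L : FirstOrder.Language.{0, 0}, L.IsAlgebraic ∧
    ∃ (A B : Type) (_ : L.Structure A) (_ : L.Structure B), Nonempty A ∧ Nonempty B ∧
      (∀ (n : ℕ) (a : Fin n → A), ∃ b : Fin n → B,
        ∀ φ : L.Formula (Fin n), φ.Realize a ↔ φ.Realize b) ∧
      (∀ (n : ℕ) (b : Fin n → B), ∃ a : Fin n → A,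
        ∀ φ : L.Formula (Fin n), φ.Realize b ↔ φ.Realize a) ∧
      Structure.FG L A ∧ ¬ Structure.FG L B :=
  ⟨H10.Iso.L, inferInstance, H10.Iso.H 0, H10.Iso.U, inferInstance, inferInstance,
    ⟨⟨(0, []), le_rfl⟩⟩, inferInstance,
    fun _ a => ⟨fun i => (a i).1, fun φ => (H10.Iso.elem 0 a φ).symm⟩,
    fun _ b => H10.Iso.down 0 b, H10.Iso.fg 0, H10.Iso.not_fg⟩

end Pool.Agent.Results.MP_74a3dd_lc.NotFG
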